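import Mathlib.LinearAlgebra.Dimension.Finrank
import Pool.Agent.N103.WT.Defs

/-!
# The rank of the algebraic combinations of the Kunneth components: definitions
-/

open CategoryTheory AlgebraicGeometry

set_option autoImplicit false

universe u v

namespace Pool.Agent.N103.GP

open Pool.Agent.H914 VarClass Obj WeilCohomology Pool.Agent.N103.WT

variable {k : Type u} [Field k] {𝒱 : VarClass k} {ops : CycleOps 𝒱}

/-- The functions `c` with rational values, zero in the degrees in which `X` has no cohomology, for
which the combination `∑ c(i) π_i` of the Künneth components of the diagonal of `X` is algebraic: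
`A X c` holds, where `A` is `RationalWeight W` (classes of rational cycles) or `SpanWeight W`
(their linear combinations with coefficients in the coefficient field). -/
def algebraicWeights (W : WeilCohomology.{u, v} ops) (A : 𝒱.Obj → (ℕ → ℚ) → Prop) (X : 𝒱.Obj) :
    Set (ℕ → ℚ) :=
  {c | A X c ∧ ∀ i, W.gr X i = ⊥ → c i = 0}

/-- The number of linearly independent combinations of the Künneth components of the diagonal of
`X` which are algebraic. -/
noncomputable def rank (W : WeilCohomology.{u, v} ops) (A : 𝒱.Obj → (ℕ → ℚ) → Prop) (X : 𝒱.Obj) :
    ℕ :=
  Module.finrank ℚ (Submodule.span ℚ (algebraicWeights W A X))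

/-- The number of nonzero Künneth components of the diagonal of `X`: the number of the degrees in
which `X` has cohomology. -/
noncomputable def components (W : WeilCohomology.{u, v} ops) (X : 𝒱.Obj) : ℕ :=
  {i | W.gr X i ≠ ⊥}.ncard

end Pool.Agent.N103.GP
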