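import Pool.Agent.N103.GP.Main

/-!
# The gap theorem for the Künneth components of powers: the dichotomy
-/

set_option autoImplicit false

open CategoryTheory AlgebraicGeometry Finset TensorProduct

universe u v

namespace Pool.Agent.N103.GP

open Pool.Agent.H914 VarClass Obj WeilCohomology Pool.Agent.N190.CB Pool.Agent.N103.OC
  Pool.Agent.N103.WT

/-! ### Linear algebra -/

/-- restriction to a finite set -/
def restr (S : Finset ℕ) : (ℕ → ℚ) →ₗ[ℚ] (S → ℚ) where
  toFun f i := f i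
  map_add' _ _ := rfl
  map_smul' _ _ := rfl

lemma restr_inj {M : Submodule ℚ (ℕ → ℚ)} {S : Finset ℕ}
    (hS : ∀ f ∈ M, (∀ i ∈ S, f i = 0) → f = 0) :
    Function.Injective ((restr S).comp M.subtype) := by
  rw [← LinearMap.ker_eq_bot, LinearMap.ker_eq_bot']
  intro f hf
  apply Subtype.ext
  refine hS f f.2 fun i hi => ?_
  exact congrFun hf ⟨i, hi⟩

lemma finrank_le {M : Submodule ℚ (ℕ → ℚ)} {S : Finset ℕ}
    (hS : ∀ f ∈ M, (∀ i ∈ S, f i = 0) → f = 0) : Module.finrank ℚ M ≤ S.card := by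
  have := LinearMap.finrank_le_finrank_of_injective (restr_inj hS)
  rwa [Module.finrank_fintype_fun_eq_card, Fintype.card_coe] at this

lemma finrank_eq {M : Submodule ℚ (ℕ → ℚ)} {S : Finset ℕ}
    (hS : ∀ f, f ∈ M ↔ ∀ i, i ∉ S → f i = 0) : Module.finrank ℚ M = S.card := by
  classical
  have hS' : ∀ f ∈ M, (∀ i ∈ S, f i = 0) → f = 0 := by
    intro f hf h0
    funext i
    by_cases hi : i ∈ S
    · exact h0 i hi
    · exact (hS f).1 hf i hi
  apply le_antisymm (finrank_le hS')
  have : Module.Finite ℚ M := Module.Finite.of_injective _ (restr_inj hS')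
  let E : (S → ℚ) →ₗ[ℚ] M :=
    { toFun := fun g => ⟨fun i => if hi : i ∈ S then g ⟨i, hi⟩ else 0,
        (hS _).2 fun i hi => by simp [hi]⟩
      map_add' := fun g g' => by
        apply Subtype.ext
        funext i
        by_cases hi : i ∈ S <;> simp [hi]
      map_smul' := fun q g => by
        apply Subtype.ext
        funext i
        by_cases hi : i ∈ S <;> simp [hi] }
  have hE : Function.Injective E := by
    intro g g' hgg
    funext i
    have h1 := congrFun (congrArg Subtype.val hgg) i.1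
    simpa [E] using h1
  have := LinearMap.finrank_le_finrank_of_injective hE
  rwa [Module.finrank_fintype_fun_eq_card, Fintype.card_coe] at this

variable {k : Type u} [Field k] {𝒱 : VarClass k} {ops : CycleOps 𝒱}
  {W : WeilCohomology.{u, v} ops} {X Y Z E : 𝒱.Obj}
  {Op : ∀ X : 𝒱.Obj, Set (Module.End W.K (W.H X))}

/-- the space of the weights -/
def wmod (h : OpClass W Op) (X : 𝒱.Obj) : Submodule ℚ (ℕ → ℚ) where
  carrier := {c | op W X c ∈ Op X ∧ ∀ i, W.gr X i = ⊥ → c i = 0}
  add_mem' := by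
    rintro a b ⟨ha, ha'⟩ ⟨hb, hb'⟩
    refine ⟨fadd h ha hb, fun i hi => ?_⟩
    rw [Pi.add_apply, ha' i hi, hb' i hi, add_zero]
  zero_mem' := ⟨fconst h 0, fun _ _ => rfl⟩
  smul_mem' := by
    rintro q a ⟨ha, ha'⟩
    refine ⟨fsmul h q ha, fun i hi => ?_⟩
    rw [Pi.smul_apply, ha' i hi, smul_zero]

lemma rank_eq (h : OpClass W Op) {A : 𝒱.Obj → (ℕ → ℚ) → Prop}
    (hA : ∀ X c, A X c ↔ op W X c ∈ Op X) (X : 𝒱.Obj) :
    rank W A X = Module.finrank ℚ (wmod h X) := by
  have h1 : algebraicWeights W A X = (wmod h X : Set (ℕ → ℚ)) := by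
    ext c
    change (A X c ∧ _) ↔ (op W X c ∈ Op X ∧ _)
    rw [hA]
  rw [rank, h1, Submodule.span_eq]

/-- **The vanishing.** -/
lemma vanish {d r u v x y : ℕ} {f : ℕ → ℚ} (huv : u < v) (hxy : x < y)
    (h1 : ∀ s ≤ (r + 1) * d, f (u + 2 * s) = f (v + 2 * s))
    (h2 : ∀ s ≤ r * d, f (x + 2 * s) = f (y + 2 * s))
    (h0 : ∀ i, (¬ ∃ s ≤ (r + 1) * d, i = v + 2 * s) → (¬ ∃ s ≤ r * d, i = y + 2 * s) → f i = 0) :
    ∀ i, f i = 0 := by
  intro i
  induction i using Nat.strong_induction_on with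
  | _ i ih =>
  by_cases hv : ∃ s ≤ (r + 1) * d, i = v + 2 * s
  · obtain ⟨s, hs, rfl⟩ := hv
    rw [← h1 s hs]
    exact ih _ (by omega)
  · by_cases hy : ∃ s ≤ r * d, i = y + 2 * s
    · obtain ⟨s, hs, rfl⟩ := hy
      rw [← h2 s hs]
      exact ih _ (by omega)
    · exact h0 i hv hy

/-- the determining set -/
def detSet (d r v y : ℕ) : Finset ℕ :=
  range (2 * ((r + 2) * d) + 1) \ ((range ((r + 1) * d + 1)).image (fun s => v + 2 * s) ∪
    (range (r * d + 1)).image (fun s => y + 2 * s))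

lemma card_detSet {d r v y : ℕ} (hd : 0 < d) (hv : v ≤ 2 * d) (hy : y ≤ 4 * d)
    (hpar : (v + y) % 2 = 1) : (detSet d r v y).card + 1 = 3 * d := by
  have hrd : (r + 1) * d = r * d + d := by ring
  have hrd2 : (r + 2) * d = r * d + 2 * d := by ring
  rw [detSet, Finset.card_sdiff_of_subset, Finset.card_union_of_disjoint,
    Finset.card_image_of_injective, Finset.card_image_of_injective, card_range, card_range,
    card_range, hrd, hrd2]
  · omega
  · intro a b hab
    dsimp only at hab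
    omega
  · intro a b hab
    dsimp only at hab
    omega
  · rw [Finset.disjoint_left]
    intro i hi hi'
    rw [Finset.mem_image] at hi hi'
    obtain ⟨s, _, rfl⟩ := hi
    obtain ⟨t, _, ht⟩ := hi'
    omega
  · intro i hi
    rw [Finset.mem_union, Finset.mem_image, Finset.mem_image] at hi
    rw [mem_range, hrd2]
    rcases hi with ⟨s, hs, rfl⟩ | ⟨s, hs, rfl⟩
    · rw [mem_range, hrd] at hs
      omega
    · rw [mem_range] at hs
      omega

/-- **The gap.** -/
theorem gap (h : OpClass W Op) (hX : Pairs W X) (hC : ¬ ∀ m, op W X (delta m) ∈ Op X) (r : ℕ) :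
    Module.finrank ℚ (wmod h (pw X (r + 2))) + 1 ≤ 3 * X.dim := by
  classical
  obtain ⟨u, v, huv, hv, hins, hub, hvb⟩ := exists_insep h hC
  have hd : 0 < X.dim := by omega
  have hdim : (pw X (r + 2)).dim = (r + 2) * X.dim := pw_dim X (r + 1)
  have h1 : ∀ f ∈ wmod h (pw X (r + 2)), ∀ s ≤ (r + 1) * X.dim,
      f (u + 2 * s) = f (v + 2 * s) := fun f hf s hs => hins _ (pw_shift_one h hX hf.1 hs)
  have hout : ∀ f ∈ wmod h (pw X (r + 2)), ∀ i, 2 * ((r + 2) * X.dim) < i → f i = 0 := by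
    intro f hf i hi
    exact hf.2 i (W.gr_eq_bot _ i (by rw [hdim]; exact hi))
  by_cases hex : ∃ j, Odd j ∧ W.gr X j ≠ ⊥
  · -- the largest odd degree
    obtain ⟨j₁, ⟨hj₁, hb₁⟩, hmax⟩ : ∃ j₁, (Odd j₁ ∧ W.gr X j₁ ≠ ⊥) ∧
        ∀ j, Odd j → W.gr X j ≠ ⊥ → j ≤ j₁ := by
      have hfin : ∀ j, (Odd j ∧ W.gr X j ≠ ⊥) → j ≤ 2 * X.dim := fun j hj => (dual_ne_bot hj.2).1
      refine ⟨Nat.findGreatest (fun j => Odd j ∧ W.gr X j ≠ ⊥) (2 * X.dim), ?_, ?_⟩
      · obtain ⟨j, hj⟩ := hex
        exact Nat.findGreatest_spec (P := fun j => Odd j ∧ W.gr X j ≠ ⊥) (hfin j hj) hj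
      · intro j hjo hjb
        exact Nat.le_findGreatest (hfin j ⟨hjo, hjb⟩) ⟨hjo, hjb⟩
    obtain ⟨j₂, hj₂, hb₂, hins2⟩ := insep_square h hX (m := v) (m' := u)
      (fun f hf => (hins f hf).symm) hj₁ hb₁
    have hj21 : j₂ ≤ j₁ := hmax j₂ hj₂ hb₂
    have hj1d := (dual_ne_bot hb₁).1
    have h2 : ∀ f ∈ wmod h (pw X (r + 2)), ∀ s ≤ r * X.dim,
        f (u + j₂ + 2 * s) = f (v + j₁ + 2 * s) := fun f hf s hs =>
      hins2 _ (pw_shift_square h hX hf.1 hs)
    have hcard := card_detSet (r := r) hd hv (y := v + j₁) (by omega) (by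
      rw [Nat.odd_iff] at hj₁
      omega)
    have hle : Module.finrank ℚ (wmod h (pw X (r + 2))) ≤ (detSet X.dim r v (v + j₁)).card := by
      apply finrank_le
      intro f hf h0
      funext i
      refine vanish (d := X.dim) (r := r) (u := u) (v := v) (x := u + j₂) (y := v + j₁) huv
        (by omega) (h1 f hf) (h2 f hf) ?_ i
      intro l hl1 hl2
      by_cases hl : l ≤ 2 * ((r + 2) * X.dim)
      · apply h0
        rw [detSet, mem_sdiff, mem_union, mem_image, mem_image, mem_range]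
        refine ⟨by omega, ?_⟩
        rintro (⟨s, hs, hs'⟩ | ⟨s, hs, hs'⟩)
        · exact hl1 ⟨s, by rw [mem_range] at hs; omega, hs'.symm⟩
        · exact hl2 ⟨s, by rw [mem_range] at hs; omega, hs'.symm⟩
      · exact hout f hf l (by omega)
    omega
  · -- no odd cohomology
    have hnoX : ∀ j, Odd j → W.gr X j = ⊥ := by
      intro j hj
      by_contra hcon
      exact hex ⟨j, hj, hcon⟩
    have hno : ∀ f ∈ wmod h (pw X (r + 2)), ∀ i, Odd i → f i = 0 := fun f hf i hi =>
      hf.2 i (pw_odd_bot hnoX (r + 1) i hi)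
    have hcard := card_detSet (r := r) hd hv (y := if v % 2 = 0 then 1 else 0) (by
      split_ifs <;> omega) (by split_ifs <;> omega)
    have hle : Module.finrank ℚ (wmod h (pw X (r + 2))) ≤
        (detSet X.dim r v (if v % 2 = 0 then 1 else 0)).card := by
      apply finrank_le
      intro f hf h0
      have hve : v % 2 = 0 := by
        by_contra hcon
        exact hvb (hnoX v (Nat.odd_iff.2 (by omega)))
      funext i
      -- the odd numbers in the second set are harmless
      induction i using Nat.strong_induction_on with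
      | _ i ih =>
      by_cases hio : Odd i
      · exact hno f hf i hio
      · by_cases hl : i ≤ 2 * ((r + 2) * X.dim)
        · by_cases hvs : ∃ s ≤ (r + 1) * X.dim, i = v + 2 * s
          · obtain ⟨s, hs, rfl⟩ := hvs
            rw [← h1 f hf s hs]
            exact ih _ (by omega)
          · apply h0
            rw [detSet, mem_sdiff, mem_union, mem_image, mem_image, mem_range]
            refine ⟨by omega, ?_⟩
            rintro (⟨s, hs, hs'⟩ | ⟨s, hs, hs'⟩)
            · exact hvs ⟨s, by rw [mem_range] at hs; omega, hs'.symm⟩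
            · rw [if_pos hve] at hs'
              apply hio
              rw [Nat.odd_iff]
              omega
        · exact hout f hf i (by omega)
    omega

/-- All combinations are algebraic if all components are. -/
lemma all_mem (h : OpClass W Op) (hC : ∀ m, op W X (delta m) ∈ Op X) (n : ℕ) (hn : 1 ≤ n)
    (c : ℕ → ℚ) : op W (pw X n) c ∈ Op (pw X n) := by
  obtain ⟨r, rfl⟩ : ∃ r, n = r + 1 := ⟨n - 1, by omega⟩
  have h1 : ∀ i, proj (W.isInternal X) i ∈ Op X := fun i => by
    rw [← op_delta]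
    exact hC i
  exact h.scal_mem (h.pw_proj h1 r) c

lemma finrank_all (h : OpClass W Op) (hY : ∀ c, op W Y c ∈ Op Y) :
    Module.finrank ℚ (wmod h Y) = components W Y := by
  classical
  have h1 : {i | W.gr Y i ≠ ⊥} =
      (((range (2 * Y.dim + 1)).filter fun i => W.gr Y i ≠ ⊥ : Finset ℕ) : Set ℕ) := by
    ext i
    simp only [Set.mem_setOf_eq, coe_filter, mem_range]
    constructor
    · intro hi
      exact ⟨Nat.lt_succ_of_le (dual_ne_bot hi).1, hi⟩
    · exact fun hi => hi.2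
  rw [components, h1, Set.ncard_coe_finset]
  apply finrank_eq
  intro f
  constructor
  · intro hf i hi
    apply hf.2
    by_contra hcon
    exact hi (mem_filter.2 ⟨mem_range.2 (Nat.lt_succ_of_le (dual_ne_bot hcon).1), hcon⟩)
  · intro hf
    exact ⟨hY f, fun i hi => hf i fun h' => (mem_filter.1 h').2 hi⟩

/-- The even degrees. -/
lemma even_ne_bot (hX : Pairs W X) {s : ℕ} (hs : s ≤ X.dim) : W.gr X (2 * s) ≠ ⊥ := by
  obtain ⟨a, b, ha, hb, hab⟩ := hX s hs
  intro hbot
  have h1 := W.cl_mem ha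
  rw [hbot, Submodule.mem_bot] at h1
  rw [h1, mul_zero, map_zero] at hab
  exact hab rfl

lemma pw_even_ne_bot (hX : Pairs W X) (n : ℕ) : ∀ s ≤ (n + 1) * X.dim,
    W.gr (pw X (n + 1)) (2 * s) ≠ ⊥ := by
  induction n with
  | zero =>
    intro s hs
    rw [zero_add, one_mul] at hs
    exact even_ne_bot hX hs
  | succ n ih =>
    intro s hs
    rw [Nat.succ_mul] at hs
    obtain ⟨s1, s2, h1, h2, rfl⟩ : ∃ s1 s2, s1 ≤ (n + 1) * X.dim ∧ s2 ≤ X.dim ∧ s = s1 + s2 := by
      by_cases hle : s ≤ (n + 1) * X.dim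
      · exact ⟨s, 0, hle, Nat.zero_le _, rfl⟩
      · exact ⟨(n + 1) * X.dim, s - (n + 1) * X.dim, le_rfl, by omega, by omega⟩
    rw [mul_add]
    exact prod_ne_bot (X := pw X (n + 1)) (ih s1 h1) (even_ne_bot hX h2)

lemma components_ge (hX : Pairs W X) {n : ℕ} (hn : 1 ≤ n) :
    n * X.dim + 1 ≤ components W (pw X n) := by
  classical
  obtain ⟨r, rfl⟩ : ∃ r, n = r + 1 := ⟨n - 1, by omega⟩
  have h1 : ((range ((r + 1) * X.dim + 1)).image (fun s => 2 * s) : Set ℕ) ⊆
      {i | W.gr (pw X (r + 1)) i ≠ ⊥} := by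
    intro i hi
    rw [coe_image, Set.mem_image] at hi
    obtain ⟨s, hs, rfl⟩ := hi
    rw [mem_coe, mem_range] at hs
    exact pw_even_ne_bot hX r s (by omega)
  have hfin : {i | W.gr (pw X (r + 1)) i ≠ ⊥}.Finite :=
    (Set.finite_le_nat (2 * (pw X (r + 1)).dim)).subset fun i hi => (dual_ne_bot hi).1
  have h2 := Set.ncard_le_ncard h1 hfin
  rw [Set.ncard_coe_finset, Finset.card_image_of_injective, card_range] at h2
  · exact h2
  · intro a b hab
    dsimp only at hab
    omega

end Pool.Agent.N103.GP
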