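import Pool.Agent.N103.WT.Main
import Pool.Agent.N103.GP.Defs

/-!
# The gap theorem for the Künneth components of powers
-/

set_option autoImplicit false

open CategoryTheory AlgebraicGeometry Finset TensorProduct

universe u v

namespace Pool.Agent.N103.GP

open Pool.Agent.H914 VarClass Obj WeilCohomology Pool.Agent.N190.CB Pool.Agent.N103.OC
  Pool.Agent.N103.WT

variable {k : Type u} [Field k] {𝒱 : VarClass k} {ops : CycleOps 𝒱}
  {W : WeilCohomology.{u, v} ops} {X Y Z E : 𝒱.Obj}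
  {Op : ∀ X : 𝒱.Obj, Set (Module.End W.K (W.H X))}

/-- If all pairs of degrees are separated, all components are in the class. -/
lemma sep_all (h : OpClass W Op) (hs : ∀ u ≤ 2 * X.dim, ∀ v ≤ 2 * X.dim, u ≠ v →
    ∃ f : ℕ → ℚ, op W X f ∈ Op X ∧ f u ≠ f v) (m : ℕ) : op W X (delta m) ∈ Op X := by
  classical
  by_cases hm : m ≤ 2 * X.dim
  swap
  · rw [op_congr (c' := fun _ => 0)]
    · exact fconst h 0
    · intro i hi
      rw [delta, if_neg (by omega)]
  have h1 : ∀ u, ∃ f : ℕ → ℚ, (u ≤ 2 * X.dim → u ≠ m → op W X f ∈ Op X ∧ f u ≠ f m) := by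
    intro u
    by_cases hu : u ≤ 2 * X.dim ∧ u ≠ m
    · obtain ⟨f, hf⟩ := hs u hu.1 m hm hu.2
      exact ⟨f, fun _ _ => hf⟩
    · exact ⟨fun _ => 0, fun h1 h2 => absurd ⟨h1, h2⟩ hu⟩
  choose f hf using h1
  set g : ℕ → ℕ → ℚ := fun u i => if u = m then 1 else
    (f u m - f u u)⁻¹ * (f u i + -1 * f u u) with hg
  have h2 : op W X (fun i => ∏ u ∈ range (2 * X.dim + 1), g u i) ∈ Op X := by
    apply fprod h
    intro u hu
    rw [mem_range] at hu
    by_cases hum : u = m
    · have : g u = fun _ => 1 := by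
        funext i
        rw [hg]
        simp only [if_pos hum]
      rw [this]
      exact fconst h 1
    · have : g u = fun i => (f u m - f u u)⁻¹ * (f u i + -1 * f u u) := by
        funext i
        rw [hg]
        simp only [if_neg hum]
      rw [this]
      exact fsmul h _ (fadd h (hf u (by omega) hum).1 (fconst h _))
  rwa [op_congr (c' := delta m)] at h2
  intro i hi
  rw [delta]
  split_ifs with him
  · apply Finset.prod_eq_one
    intro u hu
    rw [mem_range] at hu
    rw [hg]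
    dsimp only
    split_ifs with hum
    · rfl
    · subst him
      rw [neg_one_mul, ← sub_eq_add_neg, inv_mul_cancel₀]
      rw [sub_ne_zero]
      exact (hf u (by omega) hum).2.symm
  · apply Finset.prod_eq_zero (i := i) (mem_range.2 (by omega))
    rw [hg]
    simp only [if_neg him]
    rw [neg_one_mul, add_neg_cancel, mul_zero]

/-- In a degree without cohomology the value does not matter. -/
lemma delta_of_bot (h : OpClass W Op) {u : ℕ} (hu : W.gr X u = ⊥) : op W X (delta u) ∈ Op X := by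
  rw [op_delta, proj_zero_of_bot hu]
  exact h.zero X

/-- Two degrees of `X` are inseparable. -/
def Insep (Op : ∀ X : 𝒱.Obj, Set (Module.End W.K (W.H X))) (X : 𝒱.Obj) (u v : ℕ) : Prop :=
  ∀ f : ℕ → ℚ, op W X f ∈ Op X → f u = f v

lemma exists_insep (h : OpClass W Op) (hC : ¬ ∀ m, op W X (delta m) ∈ Op X) :
    ∃ u v, u < v ∧ v ≤ 2 * X.dim ∧ Insep Op X u v ∧ W.gr X u ≠ ⊥ ∧ W.gr X v ≠ ⊥ := by
  by_contra hcon
  apply hC
  apply sep_all h
  intro u hu v hv huv
  by_contra hcon2
  push Not at hcon2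
  have hu' : W.gr X u ≠ ⊥ := by
    intro hbot
    have := hcon2 _ (delta_of_bot h hbot)
    rw [delta, delta, if_pos rfl, if_neg huv.symm] at this
    exact one_ne_zero this
  have hv' : W.gr X v ≠ ⊥ := by
    intro hbot
    have := hcon2 _ (delta_of_bot h hbot)
    rw [delta, delta, if_pos rfl, if_neg huv] at this
    exact one_ne_zero this.symm
  rcases lt_or_gt_of_ne huv with h1 | h1
  · exact hcon ⟨u, v, h1, hv, hcon2, hu', hv'⟩
  · exact hcon ⟨v, u, h1, hu, fun f hf => (hcon2 f hf).symm, hv', hu'⟩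

/-- **The relation from the contraction with the diagonal.** -/
lemma insep_square (h : OpClass W Op) (hX : Pairs W X) {m m' j₁ : ℕ} (hm : Insep Op X m m')
    (hj : Odd j₁) (hb : W.gr X j₁ ≠ ⊥) :
    ∃ j₂, Odd j₂ ∧ W.gr X j₂ ≠ ⊥ ∧ Insep Op (X.prod X) (m' + j₂) (m + j₁) := by
  classical
  by_contra hcon
  push Not at hcon
  have h1 : ∀ j, ∃ f : ℕ → ℚ, (Odd j → W.gr X j ≠ ⊥ →
      op W (X.prod X) f ∈ Op (X.prod X) ∧ f (m' + j) ≠ f (m + j₁)) := by
    intro j
    by_cases hj' : Odd j ∧ W.gr X j ≠ ⊥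
    · have h2 := hcon j hj'.1 hj'.2
      unfold Insep at h2
      push Not at h2
      obtain ⟨f, hf⟩ := h2
      exact ⟨f, fun _ _ => hf⟩
    · exact ⟨fun _ => 0, fun h1 h2 => absurd ⟨h1, h2⟩ hj'⟩
  choose f hf using h1
  set g : ℕ → ℕ → ℚ := fun j i => if Odd j ∧ W.gr X j ≠ ⊥ then f j i + -1 * f j (m' + j) else 1
    with hg
  have h2 : op W (X.prod X) (fun i => ∏ j ∈ range (2 * X.dim + 1), g j i) ∈ Op (X.prod X) := by
    apply fprod h
    intro j _
    by_cases hj' : Odd j ∧ W.gr X j ≠ ⊥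
    · have : g j = fun i => f j i + -1 * f j (m' + j) := by
        funext i
        rw [hg]
        simp only [if_pos hj']
      rw [this]
      exact fadd h (hf j hj'.1 hj'.2).1 (fconst h _)
    · have : g j = fun _ => 1 := by
        funext i
        rw [hg]
        simp only [if_neg hj']
      rw [this]
      exact fconst h 1
  set χ : ℕ → ℚ := fun i => ∏ j ∈ range (2 * X.dim + 1), g j i with hχ
  have h3 : op W (X.prod X) (fun i => χ i * χ i) ∈ Op (X.prod X) := fmul h h2 h2
  have hχ1 : χ (m + j₁) ≠ 0 := by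
    rw [hχ]
    dsimp only
    rw [Finset.prod_ne_zero_iff]
    intro j _
    rw [hg]
    dsimp only
    split_ifs with hj'
    · rw [neg_one_mul, ← sub_eq_add_neg, sub_ne_zero]
      exact (hf j hj'.1 hj'.2).2.symm
    · exact one_ne_zero
  have hχ2 : ∀ j ∈ range (2 * X.dim + 1), Odd j → W.gr X j ≠ ⊥ → χ (m' + j) = 0 := by
    intro j hjr hjo hjb
    rw [hχ]
    apply Finset.prod_eq_zero hjr
    rw [hg]
    simp only
    rw [if_pos ⟨hjo, hjb⟩, neg_one_mul, add_neg_cancel]
  -- the shifts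
  have h4 : ∀ t ≤ X.dim, χ (m + 2 * t) * χ (m + 2 * t) = χ (m' + 2 * t) * χ (m' + 2 * t) := by
    intro t ht
    have h5 : op W X (fun i => χ (i + 2 * t) * χ (i + 2 * t)) ∈ Op X := h.shift hX h3 ht
    exact hm _ h5
  -- the contraction
  have h5 := h.euler h3
  have h6 : op W X (fun i => ∑ j ∈ range (2 * X.dim + 1), χ (i + j) * χ (i + j) *
      ((-1 : ℚ) ^ j * W.betti X j)) ∈ Op X := by
    have e1 : op W X (fun i => ∑ j ∈ range (2 * X.dim + 1), χ (i + j) * χ (i + j) *
        ((-1 : ℚ) ^ j * W.betti X j)) = scal (W.isInternal X) (fun i =>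
          ∑ j ∈ range (2 * X.dim + 1), ((χ (i + j) * χ (i + j) : ℚ) : W.K) *
            ((-1 : W.K) ^ j * (W.betti X j : W.K))) := by
      rw [op]
      congr 1
      funext i
      push_cast
      rfl
    rw [e1]
    exact h5
  have h7 := hm _ h6
  have h8 : ∑ j ∈ range (2 * X.dim + 1), (χ (m + j) * χ (m + j) * ((-1 : ℚ) ^ j * W.betti X j) -
      χ (m' + j) * χ (m' + j) * ((-1 : ℚ) ^ j * W.betti X j)) = 0 := by
    rw [Finset.sum_sub_distrib, sub_eq_zero]
    exact h7
  have h9 : ∀ j ∈ range (2 * X.dim + 1),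
      (χ (m + j) * χ (m + j) * ((-1 : ℚ) ^ j * W.betti X j) -
        χ (m' + j) * χ (m' + j) * ((-1 : ℚ) ^ j * W.betti X j)) ≤ 0 := by
    intro j hjr
    rcases Nat.even_or_odd j with hje | hjo
    · obtain ⟨t, rfl⟩ := hje
      rw [mem_range] at hjr
      have := h4 t (by omega)
      rw [← two_mul, this, sub_self]
    · have hnn : (0 : ℚ) ≤ W.betti X j := Nat.cast_nonneg _
      by_cases hjb : W.gr X j = ⊥
      · rw [betti_eq_zero_iff.2 hjb]
        simp
      · rw [hχ2 j hjr hjo hjb, hjo.neg_one_pow]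
        nlinarith [mul_nonneg (mul_self_nonneg (χ (m + j))) hnn]
  have h10 := (Finset.sum_eq_zero_iff_of_nonpos h9).1 h8
  have hj₁r : j₁ ∈ range (2 * X.dim + 1) := by
    rw [mem_range]
    have := (dual_ne_bot hb).1
    omega
  have h11 := h10 j₁ hj₁r
  rw [hχ2 j₁ hj₁r hj hb, hj.neg_one_pow] at h11
  have hbj : (W.betti X j₁ : ℚ) ≠ 0 := by
    intro h0
    exact hb (betti_eq_zero_iff.1 (by exact_mod_cast h0))
  have h12 : χ (m + j₁) * χ (m + j₁) * W.betti X j₁ = 0 := by linarith
  exact (mul_ne_zero (mul_ne_zero hχ1 hχ1) hbj) h12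

/-- The shifts of a function on a power. -/
lemma pw_shift_square (h : OpClass W Op) (hX : Pairs W X) {r : ℕ} {c : ℕ → ℚ}
    (hc : op W (pw X (r + 2)) c ∈ Op (pw X (r + 2))) {s : ℕ} (hs : s ≤ r * X.dim) :
    op W (X.prod X) (fun i => c (i + 2 * s)) ∈ Op (X.prod X) :=
  h.pw_shift hX r _ hc s hs

lemma pw_shift_one (h : OpClass W Op) (hX : Pairs W X) {r : ℕ} {c : ℕ → ℚ}
    (hc : op W (pw X (r + 2)) c ∈ Op (pw X (r + 2))) {s : ℕ} (hs : s ≤ (r + 1) * X.dim) :
    op W X (fun i => c (i + 2 * s)) ∈ Op X := by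
  obtain ⟨s1, s2, h1, h2, h3⟩ : ∃ s1 s2, s1 ≤ r * X.dim ∧ s2 ≤ X.dim ∧ s1 + s2 = s := by
    rw [Nat.succ_mul] at hs
    by_cases hle : s ≤ r * X.dim
    · exact ⟨s, 0, hle, Nat.zero_le _, rfl⟩
    · exact ⟨r * X.dim, s - r * X.dim, le_rfl, by omega, by omega⟩
  have h4 := pw_shift_square h hX hc h1
  have h5 : op W X (fun i => c (i + 2 * s2 + 2 * s1)) ∈ Op X := h.shift hX h4 h2
  have e1 : (fun i => c (i + 2 * s2 + 2 * s1)) = fun i => c (i + 2 * s) := by
    funext i
    congr 1
    omega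
  rwa [e1] at h5

/-- A variety without odd cohomology. -/
lemma prod_odd_bot (hX : ∀ j, Odd j → W.gr X j = ⊥) (hZ : ∀ j, Odd j → W.gr Z j = ⊥) (m : ℕ)
    (hm : Odd m) : W.gr (X.prod Z) m = ⊥ := by
  have h1 : proj (W.isInternal (X.prod Z)) m = 0 := by
    rw [← op_delta, WT.op_prod]
    apply Finset.sum_eq_zero
    intro j _
    rcases Nat.even_or_odd j with hj | hj
    · have h2 : op W X (fun i => delta m (i + j)) = 0 := by
        apply gr_ext (W.isInternal X)
        intro i x hx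
        rw [op, scal_apply _ _ hx, LinearMap.zero_apply, delta]
        split_ifs with hij
        · have : Odd i := by
            rw [Nat.odd_iff] at hm ⊢
            rw [Nat.even_iff] at hj
            omega
          rw [hX i this, Submodule.mem_bot] at hx
          rw [hx, smul_zero]
        · rw [Rat.cast_zero, zero_smul]
      rw [h2]
      apply op_ext
      intro i l a ha b hb
      rw [extOp_tmul, LinearMap.zero_apply, map_zero, zero_mul, LinearMap.zero_apply]
    · rw [proj_zero_of_bot (hZ j hj)]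
      apply op_ext
      intro i l a ha b hb
      rw [extOp_tmul, LinearMap.zero_apply, map_zero, mul_zero, LinearMap.zero_apply]
  rw [Submodule.eq_bot_iff]
  intro x hx
  rw [← proj_same (W.isInternal (X.prod Z)) hx, h1, LinearMap.zero_apply]

lemma pw_odd_bot (hX : ∀ j, Odd j → W.gr X j = ⊥) (n : ℕ) :
    ∀ m, Odd m → W.gr (pw X (n + 1)) m = ⊥ := by
  induction n with
  | zero => exact hX
  | succ n ih => exact prod_odd_bot (X := pw X (n + 1)) ih hX

end Pool.Agent.N103.GP
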